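import Pool.Agent.ANE.Stmts2

/-!
# MSO: the set of potentials with a bounded solution is closed
-/

set_option autoImplicit false

open MeasureTheory ProbabilityTheory Function Filter

open scoped ENNReal BigOperators InnerProductSpace Topology NNReal

noncomputable section

namespace Pool.Agent.ANE.H90

open Pool.Agent.Anderson hiding box mem_box card_box
open Pool.Agent.Loc Pool.Agent.Mob Pool.Agent.Helper54.Bal
  Pool.Agent.Helper96.EXP Pool.Agent.BED
open Pool.Agent.LE.MN Pool.Agent.LE.CL Pool.Agent.LE.IR Pool.Agent.LE.QD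

theorem sol_closed (d M : ℕ) [NeZero M] (E A : ℝ) :
    IsClosed {U : Tor d M → ℝ | Sol d M E A U} := by
  have hK : IsCompact {v : Tor d M → ℝ | ∑ x, v x ^ 2 ≤ A} := by
    refine Metric.isCompact_of_isClosed_isBounded ?_ ?_
    · exact isClosed_le (by fun_prop) continuous_const
    · rw [isBounded_iff_forall_norm_le]
      refine ⟨|A| + 1, fun v hv => ?_⟩
      rw [pi_norm_le_iff_of_nonneg (by positivity)]
      intro x
      have h1 : v x ^ 2 ≤ A := (Finset.single_le_sum (f := fun x => v x ^ 2)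
        (fun i _ => sq_nonneg _) (Finset.mem_univ x)).trans hv
      have h2 : A ≤ |A| := le_abs_self A
      have h3 : 0 ≤ |A| := abs_nonneg A
      rw [Real.norm_eq_abs]
      refine abs_le_of_sq_le_sq ?_ (by positivity)
      nlinarith
  have : CompactSpace {v : Tor d M → ℝ | ∑ x, v x ^ 2 ≤ A} := isCompact_iff_compactSpace.1 hK
  have hS : IsClosed {q : (Tor d M → ℝ) × {v : Tor d M → ℝ | ∑ x, v x ^ 2 ≤ A} |
      ∀ x : Tor d M, 4 * sd 0 (rep x) ≤ M →
        ∑ i : Fin d, (q.2.1 (x + ev i) + q.2.1 (x - ev i)) + (q.1 x - E) * q.2.1 x =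
          if x = 0 then 1 else 0} := by
    simp only [Set.ofPred_forall]
    refine isClosed_iInter fun x => isClosed_iInter fun _ => ?_
    have hc : ∀ y : Tor d M, Continuous fun q : (Tor d M → ℝ) ×
        {v : Tor d M → ℝ | ∑ x, v x ^ 2 ≤ A} => q.2.1 y := fun y =>
      (continuous_apply y).comp (continuous_subtype_val.comp continuous_snd)
    have hU : Continuous fun q : (Tor d M → ℝ) ×
        {v : Tor d M → ℝ | ∑ x, v x ^ 2 ≤ A} => q.1 x := (continuous_apply x).comp continuous_fst
    refine isClosed_eq ?_ continuous_const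
    exact (continuous_finsetSum _ fun i _ => (hc _).add (hc _)).add
      ((hU.sub continuous_const).mul (hc x))
  have h := isClosedMap_fst_of_compactSpace _ hS
  have e : {U : Tor d M → ℝ | Sol d M E A U} = Prod.fst '' {q : (Tor d M → ℝ) ×
      {v : Tor d M → ℝ | ∑ x, v x ^ 2 ≤ A} |
      ∀ x : Tor d M, 4 * sd 0 (rep x) ≤ M →
        ∑ i : Fin d, (q.2.1 (x + ev i) + q.2.1 (x - ev i)) + (q.1 x - E) * q.2.1 x =
          if x = 0 then 1 else 0} := by
    ext U
    constructor
    · rintro ⟨v, h1, h2⟩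
      exact ⟨(U, ⟨v, h1⟩), h2, rfl⟩
    · rintro ⟨⟨U', v⟩, h2, rfl⟩
      exact ⟨v.1, v.2, h2⟩
  rw [e]
  exact h

theorem mso : MsoStmt := by
  intro d M _ E A
  exact (sol_closed d M E A).measurableSet

end Pool.Agent.ANE.H90
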