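import Pool.Agent.ANE.Stmts2
import Pool.Agent.Helper90_LQX.EGB
import Pool.Agent.Helper90_ANE.MSO

/-!
# LAT: from the lattice to the torus
-/

set_option autoImplicit false

open MeasureTheory ProbabilityTheory Function Filter

open scoped ENNReal BigOperators InnerProductSpace Topology NNReal

noncomputable section

namespace Pool.Agent.ANE.H90

open Pool.Agent.Anderson hiding box mem_box card_box
open Pool.Agent.Loc Pool.Agent.Mob Pool.Agent.Helper54.Bal
  Pool.Agent.Helper96.EXP Pool.Agent.BED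
open Pool.Agent.LE.MN Pool.Agent.LE.CL Pool.Agent.LE.IR Pool.Agent.LE.QD
open Pool.Agent.LE.QX.H90

theorem ball_compact (X : Type) [Fintype X] (A : ℝ) :
    IsCompact {v : X → ℝ | ∑ x, v x ^ 2 ≤ A} := by
  refine Metric.isCompact_of_isClosed_isBounded ?_ ?_
  · exact isClosed_le (by fun_prop) continuous_const
  · rw [isBounded_iff_forall_norm_le]
    refine ⟨|A| + 1, fun v hv => ?_⟩
    rw [pi_norm_le_iff_of_nonneg (by positivity)]
    intro x
    have h1 : v x ^ 2 ≤ A := (Finset.single_le_sum (f := fun x => v x ^ 2)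
      (fun i _ => sq_nonneg _) (Finset.mem_univ x)).trans hv
    have h2 : A ≤ |A| := le_abs_self A
    have h3 : 0 ≤ |A| := abs_nonneg A
    rw [Real.norm_eq_abs]
    refine abs_le_of_sq_le_sq ?_ (by positivity)
    nlinarith

theorem rep_zero' {d M : ℕ} [NeZero M] : rep (0 : Tor d M) = 0 := by
  funext i
  show ((0 : Tor d M) i).valMinAbs = 0
  rw [Pi.zero_apply, ZMod.valMinAbs_zero]

theorem lat : LatStmt := by
  intro d M _ V E C hM hC
  have hsum : ∀ g : L2 d, ∑ x : Tor d M, ‖g (rep x)‖ ^ 2 ≤ ‖g‖ ^ 2 := by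
    intro g
    classical
    rw [L2.norm_sq]
    have h := (L2.summable_sq g).sum_le_tsum (Finset.univ.image (rep : Tor d M → Site d))
      (fun y _ => by positivity)
    rw [Finset.sum_image (fun x _ y _ h => rep_inj h)] at h
    exact h
  let w : ℕ → Tor d M → ℝ := fun n x => (Pool.Agent.AEN.Gn V E n 0 (rep x)).re
  have hw : ∀ n, w n ∈ {v : Tor d M → ℝ | ∑ x, v x ^ 2 ≤ C ^ 2} := by
    intro n
    have h1 : ∑ x, w n x ^ 2 ≤ ∑ x : Tor d M, ‖Pool.Agent.AEN.Gn V E n 0 (rep x)‖ ^ 2 := by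
      refine Finset.sum_le_sum fun x _ => ?_
      have h2 := Complex.abs_re_le_norm (Pool.Agent.AEN.Gn V E n 0 (rep x))
      rw [← sq_abs]
      exact pow_le_pow_left₀ (abs_nonneg _) h2 2
    exact h1.trans ((hsum _).trans (pow_le_pow_left₀ (norm_nonneg _) (hC n) 2))
  obtain ⟨v, hv, φ, hφ, hlim⟩ := (ball_compact (Tor d M) (C ^ 2)).tendsto_subseq hw
  refine ⟨v, hv, fun x hx => ?_⟩
  have hx1 : ∀ i, rep (x + ev i) = rep x + Pi.single i 1 := fun i =>
    rep_add (R := sd 0 (rep x)) (by omega) le_rfl i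
  have hx2 : ∀ i, rep (x - ev i) = rep x - Pi.single i 1 := fun i =>
    rep_sub (R := sd 0 (rep x)) (by omega) le_rfl i
  have heq : ∀ n, ∑ i : Fin d, (w n (x + ev i) + w n (x - ev i)) + (V (rep x) - E) * w n x =
      (if x = 0 then 1 else 0) -
        Pool.Agent.AEN.et n * (Pool.Agent.AEN.Gn V E n 0 (rep x)).im := by
    intro n
    have h1 := congrArg Complex.re (G_eq (V := V) (Pool.Agent.AEN.zn_im_ne E n)
      (del (0 : Site d)) (rep x))
    have h2 : (Pool.Agent.AEN.zn E n).re = E := by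
      simp [Pool.Agent.AEN.zn, zz]
    have h3 : (Pool.Agent.AEN.zn E n).im = Pool.Agent.AEN.et n := Pool.Agent.AEN.zn_im E n
    have h4 : ((del (0 : Site d) : L2 d) (rep x)).re = if x = 0 then 1 else 0 := by
      rw [del_apply]
      by_cases h : x = 0
      · rw [h, rep_zero', if_pos rfl, if_pos rfl, Complex.one_re]
      · rw [if_neg h, if_neg, Complex.zero_re]
        intro h5
        exact h (rep_inj (h5.trans rep_zero'.symm))
    rw [h4, Complex.add_re, Complex.mul_re, Complex.sub_re, Complex.sub_im, h2, h3,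
      Complex.ofReal_re, Complex.ofReal_im] at h1
    unfold lap at h1
    rw [Complex.re_sum] at h1
    have h5 : ∑ i : Fin d, (w n (x + ev i) + w n (x - ev i)) =
        ∑ i : Fin d, (G V (Pool.Agent.AEN.zn E n) (del 0) (rep x + Pi.single i 1) +
          G V (Pool.Agent.AEN.zn E n) (del 0) (rep x - Pi.single i 1)).re := by
      refine Finset.sum_congr rfl fun i _ => ?_
      rw [Complex.add_re, ← hx1, ← hx2]
      rfl
    rw [h5]
    have h6 : w n x = (G V (Pool.Agent.AEN.zn E n) (del 0) (rep x)).re := rfl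
    have h7 : (Pool.Agent.AEN.Gn V E n 0 (rep x)).im =
        (G V (Pool.Agent.AEN.zn E n) (del 0) (rep x)).im := rfl
    rw [h6, h7]
    linarith
  have hl : ∀ y, Tendsto (fun n => w (φ n) y) atTop (𝓝 (v y)) := fun y =>
    ((continuous_apply y).tendsto v).comp hlim
  have hL : Tendsto (fun n => ∑ i : Fin d, (w (φ n) (x + ev i) + w (φ n) (x - ev i)) +
      (V (rep x) - E) * w (φ n) x) atTop
      (𝓝 (∑ i : Fin d, (v (x + ev i) + v (x - ev i)) + (V (rep x) - E) * v x)) :=
    (tendsto_finsetSum _ fun i _ => (hl _).add (hl _)).add ((hl x).const_mul _)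
  have hR : Tendsto (fun n => (if x = 0 then (1 : ℝ) else 0) -
      Pool.Agent.AEN.et (φ n) * (Pool.Agent.AEN.Gn V E (φ n) 0 (rep x)).im) atTop
      (𝓝 ((if x = 0 then (1 : ℝ) else 0) - 0)) := by
    refine tendsto_const_nhds.sub ?_
    have h1 : Tendsto (fun n => Pool.Agent.AEN.et (φ n) * C) atTop (𝓝 0) := by
      have := (Pool.Agent.AEN.tendsto_et.comp hφ.tendsto_atTop).mul_const C
      rwa [zero_mul] at this
    refine squeeze_zero_norm (fun n => ?_) h1
    rw [norm_mul, Real.norm_eq_abs, Real.norm_eq_abs, abs_of_pos (Pool.Agent.AEN.et_pos _)]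
    have h2 := (Complex.abs_im_le_norm (Pool.Agent.AEN.Gn V E (φ n) 0 (rep x))).trans
      ((lp.norm_apply_le_norm (by norm_num) _ _).trans (hC (φ n)))
    exact mul_le_mul_of_nonneg_left h2 (Pool.Agent.AEN.et_pos _).le
  have h := tendsto_nhds_unique hL ((tendsto_congr fun n => heq (φ n)).2 hR)
  rw [sub_zero] at h
  exact h

end Pool.Agent.ANE.H90
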