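import Pool.Agent.ANE.Stmts3
import Pool.Agent.Helper90_ANE.LAT

/-!
# MS3: the set of potentials with a bounded, tight solution is closed
-/

set_option autoImplicit false

open MeasureTheory ProbabilityTheory Function Filter

open scoped ENNReal BigOperators InnerProductSpace Topology NNReal

noncomputable section

namespace Pool.Agent.ANE.H90

open Pool.Agent.Anderson hiding box mem_box card_box
open Pool.Agent.Loc Pool.Agent.Mob Pool.Agent.Helper54.Bal
  Pool.Agent.Helper96.EXP Pool.Agent.BED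
open Pool.Agent.LE.MN Pool.Agent.LE.CL Pool.Agent.LE.IR Pool.Agent.LE.QD

theorem solT_closed (d M : ℕ) [NeZero M] (E A e : ℝ) (R : ℕ) :
    IsClosed {U : Tor d M → ℝ | SolT d M E A e R U} := by
  have : CompactSpace {v : Tor d M → ℝ | ∑ x, v x ^ 2 ≤ A} :=
    isCompact_iff_compactSpace.1 (ball_compact _ A)
  have hc : ∀ y : Tor d M, Continuous fun q : (Tor d M → ℝ) ×
      {v : Tor d M → ℝ | ∑ x, v x ^ 2 ≤ A} => q.2.1 y := fun y =>
    (continuous_apply y).comp (continuous_subtype_val.comp continuous_snd)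
  have hU : ∀ y : Tor d M, Continuous fun q : (Tor d M → ℝ) ×
      {v : Tor d M → ℝ | ∑ x, v x ^ 2 ≤ A} => q.1 y := fun y =>
    (continuous_apply y).comp continuous_fst
  have hS1 : IsClosed {q : (Tor d M → ℝ) × {v : Tor d M → ℝ | ∑ x, v x ^ 2 ≤ A} |
      ∑ x : Tor d M, (if R < sd 0 (rep x) then q.2.1 x ^ 2 else 0) ≤ e ^ 2} := by
    refine isClosed_le (continuous_finsetSum _ fun x _ => ?_) continuous_const
    by_cases h : R < sd 0 (rep x)
    · simp only [if_pos h]
      exact (hc x).pow 2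
    · simp only [if_neg h]
      exact continuous_const
  have hS2 : IsClosed {q : (Tor d M → ℝ) × {v : Tor d M → ℝ | ∑ x, v x ^ 2 ≤ A} |
      ∀ x : Tor d M, 4 * sd 0 (rep x) ≤ M →
        ∑ i : Fin d, (q.2.1 (x + ev i) + q.2.1 (x - ev i)) + (q.1 x - E) * q.2.1 x =
          if x = 0 then 1 else 0} := by
    simp only [Set.ofPred_forall]
    refine isClosed_iInter fun x => isClosed_iInter fun _ => ?_
    refine isClosed_eq ?_ continuous_const
    exact (continuous_finsetSum _ fun i _ => (hc _).add (hc _)).add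
      (((hU x).sub continuous_const).mul (hc x))
  have hS : IsClosed {q : (Tor d M → ℝ) × {v : Tor d M → ℝ | ∑ x, v x ^ 2 ≤ A} |
      ∑ x : Tor d M, (if R < sd 0 (rep x) then q.2.1 x ^ 2 else 0) ≤ e ^ 2 ∧
      ∀ x : Tor d M, 4 * sd 0 (rep x) ≤ M →
        ∑ i : Fin d, (q.2.1 (x + ev i) + q.2.1 (x - ev i)) + (q.1 x - E) * q.2.1 x =
          if x = 0 then 1 else 0} := hS1.inter hS2
  have h := isClosedMap_fst_of_compactSpace _ hS
  have e1 : {U : Tor d M → ℝ | SolT d M E A e R U} = Prod.fst '' {q : (Tor d M → ℝ) ×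
      {v : Tor d M → ℝ | ∑ x, v x ^ 2 ≤ A} |
      ∑ x : Tor d M, (if R < sd 0 (rep x) then q.2.1 x ^ 2 else 0) ≤ e ^ 2 ∧
      ∀ x : Tor d M, 4 * sd 0 (rep x) ≤ M →
        ∑ i : Fin d, (q.2.1 (x + ev i) + q.2.1 (x - ev i)) + (q.1 x - E) * q.2.1 x =
          if x = 0 then 1 else 0} := by
    ext U
    constructor
    · rintro ⟨v, h1, h2⟩
      exact ⟨(U, ⟨v, h1⟩), h2, rfl⟩
    · rintro ⟨⟨U', v⟩, h2, rfl⟩
      exact ⟨v.1, v.2, h2⟩
  rw [e1]
  exact h

theorem ms3 : Ms3Stmt := by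
  intro d M _ E A e R
  exact (solT_closed d M E A e R).measurableSet

end Pool.Agent.ANE.H90
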