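import Pool.Agent.ANE.Stmts
import Pool.Agent.Helper60_LQY.Base

/-!
# MRS and LAW: measurability, the transfer of the probabilities to the lattice
-/

set_option autoImplicit false

open MeasureTheory ProbabilityTheory Function Filter

open scoped ENNReal BigOperators InnerProductSpace Topology NNReal

noncomputable section

namespace Pool.Agent.ANE.H90

open Pool.Agent.Anderson hiding box mem_box card_box
open Pool.Agent.Loc Pool.Agent.Mob Pool.Agent.Helper54.Bal
  Pool.Agent.Helper96.EXP Pool.Agent.BED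
open Pool.Agent.LE.MN Pool.Agent.LE.CL Pool.Agent.LE.IR Pool.Agent.LE.QD

theorem mrs : MrsStmt := by
  intro d M _ z x y hz
  exact (Pool.Agent.LE.QD.H76.cont z hz.ne' x y).measurable

/-- the error of the torus is at most `η` -/
theorem err_le {C η M : ℝ} (hC : 1 ≤ C) (hη : 0 < η) (hε : η ≤ 1 / (24 * C ^ 5))
    (hM : 1 ≤ η ^ 2 * M) : C / η ^ 2 * Real.exp (-(η * M / C)) ≤ η := by
  have hC0 : 0 < C := by linarith
  have hC5 : 0 < 24 * C ^ 5 := by positivity
  have h1 : 1 / (η * C) ≤ η * M / C := by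
    rw [div_le_div_iff₀ (by positivity) hC0]
    calc 1 * C ≤ (η ^ 2 * M) * C := by gcongr
      _ = η * M * (η * C) := by ring
  set t : ℝ := 1 / (η * C) with ht
  have ht0 : 0 < t := by positivity
  have h2 : Real.exp (-(η * M / C)) ≤ 24 / t ^ 4 := by
    have h3 : t ^ 4 / 24 ≤ Real.exp t := by
      have := Real.pow_div_factorial_le_exp t ht0.le 4
      norm_num [Nat.factorial] at this
      exact this
    calc Real.exp (-(η * M / C)) ≤ Real.exp (-t) := by
          apply Real.exp_le_exp.2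
          linarith
      _ = 1 / Real.exp t := by rw [Real.exp_neg, one_div]
      _ ≤ 1 / (t ^ 4 / 24) := by
          apply one_div_le_one_div_of_le (by positivity) h3
      _ = 24 / t ^ 4 := by rw [one_div_div]
  have h4 : 24 / t ^ 4 = 24 * (η * C) ^ 4 := by
    rw [ht]
    field_simp
  rw [h4] at h2
  have h5 : η * (24 * C ^ 5) ≤ 1 := by
    rw [le_div_iff₀ hC5] at hε
    exact hε
  calc C / η ^ 2 * Real.exp (-(η * M / C)) ≤ C / η ^ 2 * (24 * (η * C) ^ 4) := by
        apply mul_le_mul_of_nonneg_left h2 (by positivity)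
    _ = η * (η * (24 * C ^ 5)) := by
        field_simp
    _ ≤ η * 1 := by gcongr
    _ = η := mul_one _

theorem law (hC : CtzStmt) (hM : MrsStmt) : LawStmt := by
  intro d σ E p hσ h A
  obtain ⟨C, hC1, hC⟩ := hC d
  have hC0 : 0 < C := by linarith
  have hε : 0 < 1 / (24 * C ^ 5) := by positivity
  obtain ⟨η, M, hN, hη, hηε, hηM, hp⟩ := h (A + 1) _ hε
  have := hN
  refine ⟨η, hη, ?_⟩
  obtain ⟨v, hv⟩ : ∃ v : ℝ≥0, (v : ℝ) = σ ^ 2 := ⟨⟨σ ^ 2, sq_nonneg σ⟩, rfl⟩
  have h1 := hp v hv
  have hη1 : η ≤ 1 := by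
    refine hηε.trans ?_
    rw [div_le_one (by positivity)]
    have : (1 : ℝ) ≤ C ^ 5 := one_le_pow₀ hC1
    linarith
  set S : Set (Tor d M → ℝ) := {V | (A + 1) * η ≤ (rs V ⟨E, η⟩ 0 0).im} with hS
  have hSm : MeasurableSet S :=
    measurableSet_le measurable_const (Complex.measurable_im.comp (hM d M ⟨E, η⟩ 0 0 hη))
  have h2 : PP d (gl σ) {V : Site d → ℝ | (fun x : Tor d M => V ((0 : Site d) + rep x)) ∈ S} =
      gau d M v S := by
    have hf : Measurable fun (V : Site d → ℝ) (x : Tor d M) => V ((0 : Site d) + rep x) :=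
      measurable_pi_lambda _ fun x => measurable_pi_apply _
    have h3 := Pool.Agent.LE.QY.H60.lin_eq (d := d) (M := M) hσ hv (0 : Site d)
      (S.indicator 1) (measurable_one.indicator hSm)
    rw [lintegral_indicator_one hSm] at h3
    rw [← h3]
    exact (lintegral_indicator_one (μ := PP d (gl σ)) (hf hSm)).symm
  refine h1.trans ?_
  rw [← h2]
  apply measure_mono
  intro V hV
  have h4 : (A + 1) * η ≤ (rs (fun x : Tor d M => V (rep x)) ⟨E, η⟩ 0 0).im := by
    have h5 : (fun x : Tor d M => V ((0 : Site d) + rep x)) = fun x : Tor d M => V (rep x) := by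
      funext x
      rw [zero_add]
    have h6 : (A + 1) * η ≤ (rs (fun x : Tor d M => V ((0 : Site d) + rep x)) ⟨E, η⟩ 0 0).im := hV
    rwa [h5] at h6
  have h7 := (hC M V E η hη hη1).trans (err_le hC1 hη hηε hηM)
  have h8 := (Complex.abs_im_le_norm _).trans h7
  rw [Complex.sub_im] at h8
  have h9 := abs_le.1 h8
  change A * η ≤ (G V (zz η E) (del 0) 0).im
  nlinarith [h9.1]

end Pool.Agent.ANE.H90
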