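import Pool.Agent.AEN.Stmts

/-!
# Anderson model: Green functions with a variable absorption `0 ≤ B ≤ 2 η`

If `(H - E - i B) u = δ_0` and the vectors `G (E + i / (n + 1)) δ_0` are bounded by `C`, then
`im (u 0) ≤ 2 η C²`. So if with probability at least `p` there is such `u` with `im (u 0) ≥ c`, for
arbitrarily small `η`, then with probability at least `p` the vectors are not bounded.
-/

set_option autoImplicit false

open MeasureTheory ProbabilityTheory Function Filter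

open scoped ENNReal BigOperators InnerProductSpace Topology ComplexConjugate

noncomputable section

namespace Pool.Agent.ANE.H90

open Pool.Agent.Anderson Pool.Agent.Loc Pool.Agent.Helper54.Bal Pool.Agent.AEN

variable {d : ℕ}

/-- `(H - E - i B) u = δ_0` -/
def SolB (V : Site d → ℝ) (E : ℝ) (B : Site d → ℝ) (u : L2 d) : Prop :=
  ∀ x, lap u x + ((V x : ℂ) - (E : ℂ)) * u x - Complex.I * (B x : ℂ) * u x =
    (del (0 : Site d) : L2 d) x

/-- for some absorption with values in `[0, 2 η]` the Green function at the origin has imaginary part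
at least `c` -/
def GdE (V : Site d → ℝ) (E η c : ℝ) : Prop :=
  ∃ (B : Site d → ℝ) (u : L2 d), (∀ x, 0 ≤ B x ∧ B x ≤ 2 * η) ∧ SolB V E B u ∧ c ≤ (u 0).im

theorem inner_eq (f g : L2 d) : ⟪f, g⟫_ℂ = ∑' x, conj (f x) * g x := by
  rw [lp.inner_eq_tsum]
  refine tsum_congr fun x => ?_
  rw [RCLike.inner_apply, mul_comm]

/-- NLM -/
theorem nlm {V : Site d → ℝ} {E η c C : ℝ} (h : GdE V E η c)
    (hC : ∀ n : ℕ, ‖Gn V E n 0‖ ≤ C) : c ≤ 2 * η * C ^ 2 := by
  obtain ⟨B, u, hB, hu, hc⟩ := h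
  have hη : 0 ≤ η := by
    have := hB 0
    linarith [this.1, this.2]
  have hC0 : 0 ≤ C := (norm_nonneg _).trans (hC 0)
  -- the operators
  have hb1 : ∀ x : Site d, ‖((B x : ℝ) : ℂ)‖ ≤ 2 * η := fun x => by
    rw [Complex.norm_real, Real.norm_eq_abs, abs_of_nonneg (hB x).1]
    exact (hB x).2
  have hb2 : ∀ x : Site d, ‖((Real.sqrt (B x) : ℝ) : ℂ)‖ ≤ Real.sqrt (2 * η) := fun x => by
    rw [Complex.norm_real, Real.norm_eq_abs, abs_of_nonneg (Real.sqrt_nonneg _)]
    exact Real.sqrt_le_sqrt (hB x).2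
  set Bu : L2 d := mulOp (fun x => ((B x : ℝ) : ℂ)) (2 * η) hb1 u with hBu
  set r : L2 d := mulOp (fun x => ((Real.sqrt (B x) : ℝ) : ℂ)) (Real.sqrt (2 * η)) hb2 u with hr
  have hsq : ∀ x : Site d, ((Real.sqrt (B x) : ℝ) : ℂ) * ((Real.sqrt (B x) : ℝ) : ℂ) =
      ((B x : ℝ) : ℂ) := fun x => by
    rw [← Complex.ofReal_mul, Real.mul_self_sqrt (hB x).1]
  have h1 : ∀ w : L2 d, ⟪w, Bu⟫_ℂ =
      ⟪mulOp (fun x => ((Real.sqrt (B x) : ℝ) : ℂ)) (Real.sqrt (2 * η)) hb2 w, r⟫_ℂ := by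
    intro w
    rw [inner_eq, inner_eq]
    refine tsum_congr fun x => ?_
    rw [hBu, hr, mulOp_apply, mulOp_apply, mulOp_apply, map_mul, Complex.conj_ofReal, ← hsq x]
    ring
  have h2 : ∀ w : L2 d,
      ‖mulOp (fun x => ((Real.sqrt (B x) : ℝ) : ℂ)) (Real.sqrt (2 * η)) hb2 w‖ ≤
        Real.sqrt (2 * η) * ‖w‖ := by
    intro w
    have h0 : ∀ a b : ℝ, 0 ≤ b → a ^ 2 ≤ b ^ 2 → a ≤ b := fun a b hb h => by
      nlinarith [sq_nonneg (a - b)]
    refine h0 _ _ (by positivity) ?_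
    rw [L2.norm_sq, mul_pow, L2.norm_sq w, ← tsum_mul_left]
    refine Summable.tsum_le_tsum (fun x => ?_) ?_ ((L2.summable_sq w).mul_left _)
    · rw [mulOp_apply, norm_mul, mul_pow]
      have := hb2 x
      gcongr
    · exact (memℓp_iff _).1 (mul_mem hb2 w)
  have hrr : ⟪u, Bu⟫_ℂ = ((‖r‖ ^ 2 : ℝ) : ℂ) := by
    rw [h1 u, ← hr, inner_self_eq_norm_sq_to_K]
    norm_cast
  -- one step
  have key : ∀ n : ℕ, (u 0).im = ‖r‖ ^ 2 ∧
      ‖r‖ ^ 2 ≤ et n * C ^ 2 + Real.sqrt (2 * η) * C * ‖r‖ + et n * C * ‖u‖ := by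
    intro n
    have hz := zn_im_ne E n
    have him : (zn E n).im = et n := zn_im E n
    have hre : (zn E n).re = E := by
      simp [zn, zz]
    have hzE : zn E n = (E : ℂ) + Complex.I * (et n : ℂ) := by
      apply Complex.ext
      · simp [hre]
      · simp [him]
    set f : L2 d := del 0 + (Complex.I • Bu - (Complex.I * (et n : ℂ)) • u) with hf
    have huG : u = G V (zn E n) f := by
      apply G_unique hz
      intro x
      rw [hf, lp.coeFn_add, Pi.add_apply, lp.coeFn_sub, Pi.sub_apply, lp.coeFn_smul, Pi.smul_apply,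
        lp.coeFn_smul, Pi.smul_apply, smul_eq_mul, smul_eq_mul, hBu, mulOp_apply, ← hu x, hzE]
      ring
    -- the diagonal
    have h3 : ⟪f, u⟫_ℂ = u 0 + (-Complex.I) * ((‖r‖ ^ 2 : ℝ) : ℂ) +
        (Complex.I * (et n : ℂ)) * ((‖u‖ ^ 2 : ℝ) : ℂ) := by
      have h4 : ⟪Bu, u⟫_ℂ = ((‖r‖ ^ 2 : ℝ) : ℂ) := by
        rw [← inner_conj_symm, hrr, Complex.conj_ofReal]
      have h5 : ⟪u, u⟫_ℂ = ((‖u‖ ^ 2 : ℝ) : ℂ) := by
        rw [inner_self_eq_norm_sq_to_K]
        norm_cast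
      rw [hf, inner_add_left, inner_sub_left, inner_smul_left, inner_smul_left, inner_del_left, h4,
        h5]
      simp only [map_mul, Complex.conj_I, Complex.conj_ofReal]
      ring
    have h6 : (⟪f, u⟫_ℂ).im = et n * ‖u‖ ^ 2 := by
      have := (isRes_G V).im_inner hz f
      rw [← huG, him] at this
      exact this
    have h7 : (u 0).im = ‖r‖ ^ 2 := by
      rw [h3] at h6
      simp only [Complex.add_im, Complex.mul_im, Complex.neg_re, Complex.neg_im, Complex.I_re,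
        Complex.I_im, Complex.ofReal_re, Complex.ofReal_im, Complex.mul_re] at h6
      linarith
    refine ⟨h7, ?_⟩
    -- the bilinear identity
    set v : L2 d := G V (zn E n) (del 0) with hv
    have hvC : ‖v‖ ≤ C := hC n
    have h8 : u 0 = v 0 + Complex.I * ⟪star v, Bu⟫_ℂ - (Complex.I * (et n : ℂ)) * ⟪star v, u⟫_ℂ := by
      have h9 : ⟪(del 0 : L2 d), G V (zn E n) f⟫_ℂ = ⟪G V (conj (zn E n)) (del 0), f⟫_ℂ := by
        rw [(isRes_G V).adj _ (conj_im_ne hz), Complex.conj_conj]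
      rw [← huG, inner_del_left] at h9
      have h10 := G_star (V := V) hz (del (0 : Site d))
      rw [Pool.Agent.QE.star_del'] at h10
      rw [h9, h10, ← hv, hf, inner_add_right, inner_sub_right, inner_smul_right, inner_smul_right,
        inner_del_right, star_apply, Complex.conj_conj]
      ring
    have hsv : ‖star v‖ = ‖v‖ := norm_star v
    have h11 : ‖⟪star v, Bu⟫_ℂ‖ ≤ Real.sqrt (2 * η) * C * ‖r‖ := by
      rw [h1]
      refine (norm_inner_le_norm _ _).trans ?_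
      have := h2 (star v)
      rw [hsv] at this
      gcongr
      exact this.trans (by gcongr)
    have h12 : ‖⟪star v, u⟫_ℂ‖ ≤ C * ‖u‖ := by
      refine (norm_inner_le_norm _ _).trans ?_
      rw [hsv]
      gcongr
    have h13 : (v 0).im ≤ et n * C ^ 2 := by
      rw [hv, Pool.Agent.QE.im_G_del' hz, him, ← hv]
      have := et_pos n
      gcongr
    have h14 : (u 0).im ≤ (v 0).im + ‖⟪star v, Bu⟫_ℂ‖ + et n * ‖⟪star v, u⟫_ℂ‖ := by
      rw [h8, Complex.sub_im, Complex.add_im]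
      have h15 := (le_abs_self _).trans (Complex.abs_im_le_norm (Complex.I * ⟪star v, Bu⟫_ℂ))
      have h16 := (neg_abs_le _).trans' (neg_le_neg (Complex.abs_im_le_norm
        (Complex.I * (et n : ℂ) * ⟪star v, u⟫_ℂ)))
      rw [norm_mul, Complex.norm_I, one_mul] at h15
      rw [norm_mul, norm_mul, Complex.norm_I, one_mul, Complex.norm_real, Real.norm_eq_abs,
        abs_of_pos (et_pos n)] at h16
      linarith
    rw [← h7]
    have := et_pos n
    have h17 : et n * ‖⟪star v, u⟫_ℂ‖ ≤ et n * C * ‖u‖ := by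
      rw [mul_assoc]
      gcongr
    linarith
  -- the limit
  have hlim : ‖r‖ ^ 2 ≤ Real.sqrt (2 * η) * C * ‖r‖ := by
    have h1 : Tendsto (fun n : ℕ => et n * C ^ 2 + Real.sqrt (2 * η) * C * ‖r‖ + et n * C * ‖u‖)
        atTop (𝓝 (0 * C ^ 2 + Real.sqrt (2 * η) * C * ‖r‖ + 0 * C * ‖u‖)) :=
      ((tendsto_et.mul_const _).add_const _).add ((tendsto_et.mul_const _).mul_const _)
    have h2 := ge_of_tendsto' h1 fun n => (key n).2
    linarith
  have h5 : ‖r‖ ≤ Real.sqrt (2 * η) * C := by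
    by_contra hcon
    push Not at hcon
    have hpos : 0 < ‖r‖ := lt_of_le_of_lt (by positivity) hcon
    nlinarith
  calc c ≤ (u 0).im := hc
    _ = ‖r‖ ^ 2 := (key 0).1
    _ ≤ (Real.sqrt (2 * η) * C) ^ 2 := by gcongr
    _ = 2 * η * C ^ 2 := by rw [mul_pow, Real.sq_sqrt (by positivity)]

/-- LIM -/
theorem lim {d : ℕ} {σ E c : ℝ} {p : ℝ≥0∞} (hc : 0 < c)
    (h : ∀ ε : ℝ, 0 < ε → ∃ η : ℝ, η ≤ ε ∧ p ≤ PP d (gl σ) {V | GdE V E η c}) :
    p ≤ PP d (gl σ) {V | ¬ Bd V E 0} := by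
  let S : ℕ → Set (Site d → ℝ) := fun m => {V | ∃ n : ℕ, (m : ℝ) ≤ ‖Gn V E n 0‖}
  have hcont : ∀ n : ℕ, Continuous fun V : Site d → ℝ => Gn V E n 0 := by
    intro n
    have h0 : Continuous fun V : Site d → ℝ => (V, E, (del 0 : L2 d)) :=
      continuous_id.prodMk continuous_const
    have h := (continuous_G (d := d) (η := et n) (et_pos n).ne').comp h0
    unfold Gn zn
    exact h
  have hS : ∀ m, MeasurableSet (S m) := by
    intro m
    have e : S m = ⋃ n : ℕ, {V : Site d → ℝ | (m : ℝ) ≤ ‖Gn V E n 0‖} := by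
      ext V
      rw [Set.mem_iUnion]
      rfl
    rw [e]
    exact MeasurableSet.iUnion fun n =>
      measurableSet_le measurable_const (hcont n).norm.measurable
  have hanti : Antitone S := by
    rintro a b hab V ⟨n, hn⟩
    exact ⟨n, (Nat.cast_le.2 hab).trans hn⟩
  have hp : ∀ m, p ≤ PP d (gl σ) (S m) := by
    intro m
    obtain ⟨η, hη, h1⟩ := h (c / (4 * ((m : ℝ) + 1) ^ 2)) (by positivity)
    refine h1.trans (measure_mono ?_)
    intro V hV
    by_contra hcon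
    have h2 : ∀ n : ℕ, ‖Gn V E n 0‖ ≤ (m : ℝ) + 1 := by
      intro n
      by_contra h3
      push Not at h3
      exact hcon ⟨n, by linarith⟩
    have h4 := nlm hV h2
    have h5 : 2 * η * ((m : ℝ) + 1) ^ 2 ≤
        2 * (c / (4 * ((m : ℝ) + 1) ^ 2)) * ((m : ℝ) + 1) ^ 2 := by gcongr
    have h6 : 2 * (c / (4 * ((m : ℝ) + 1) ^ 2)) * ((m : ℝ) + 1) ^ 2 = c / 2 := by
      field_simp
      norm_num
    linarith
  have hI : (⋂ m, S m) ⊆ {V | ¬ Bd V E 0} := by
    rintro V hV ⟨C, hC⟩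
    obtain ⟨m, hm⟩ := exists_nat_gt C
    obtain ⟨n, hn⟩ := Set.mem_iInter.1 hV m
    linarith [hC n]
  refine le_trans ?_ (measure_mono hI)
  rw [hanti.measure_iInter (fun m => (hS m).nullMeasurableSet) ⟨0, measure_ne_top _ _⟩]
  exact le_iInf hp

end Pool.Agent.ANE.H90
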