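import Pool.Agent.ANE.Stmts2
import Pool.Agent.Helper54_LIR.CPEb

/-!
# PR2: the vectors are unbounded with positive probability
-/

set_option autoImplicit false

open MeasureTheory ProbabilityTheory Function Filter

open scoped ENNReal BigOperators InnerProductSpace Topology NNReal

noncomputable section

namespace Pool.Agent.ANE.H90

open Pool.Agent.Anderson hiding box mem_box card_box
open Pool.Agent.Loc Pool.Agent.Mob Pool.Agent.Helper54.Bal
  Pool.Agent.Helper96.EXP Pool.Agent.BED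
open Pool.Agent.LE.MN Pool.Agent.LE.CL Pool.Agent.LE.IR Pool.Agent.LE.QD

theorem pr2 (hL : LatStmt) : Pr2Stmt := by
  intro d σ E p hσ hp h hcon
  obtain ⟨v, hv⟩ : ∃ v : ℝ≥0, (v : ℝ) = σ ^ 2 := ⟨⟨σ ^ 2, sq_nonneg σ⟩, rfl⟩
  let S : ℕ → Set (Site d → ℝ) := fun m => {V | ∀ n : ℕ, ‖Pool.Agent.AEN.Gn V E n 0‖ ≤ (m : ℝ)}
  have hmono : Monotone S := by
    intro a b hab V hV n
    exact (hV n).trans (Nat.cast_le.2 hab)
  have hc : PP d (gl σ) (⋃ m, S m)ᶜ = 0 := by
    refine measure_mono_null ?_ hcon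
    rintro V hV ⟨C, hC⟩
    obtain ⟨m, hm⟩ := exists_nat_gt C
    exact hV (Set.mem_iUnion.2 ⟨m, fun n => (hC n).trans hm.le⟩)
  have h1 : PP d (gl σ) (⋃ m, S m) = 1 := by
    have h2 : PP d (gl σ) (Set.univ : Set (Site d → ℝ)) ≤
        PP d (gl σ) (⋃ m, S m) + PP d (gl σ) (⋃ m, S m)ᶜ := by
      rw [← Set.union_compl_self (⋃ m, S m)]
      exact measure_union_le _ _
    rw [hc, add_zero, measure_univ] at h2
    exact le_antisymm prob_le_one h2
  rw [hmono.measure_iUnion] at h1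
  have h3 : ENNReal.ofReal (1 - p) < ⨆ m, PP d (gl σ) (S m) := by
    rw [h1, ENNReal.ofReal_lt_one]
    linarith
  obtain ⟨m, hm⟩ := lt_iSup_iff.1 h3
  obtain ⟨M, hM, h8, hg⟩ := h ((m : ℝ) ^ 2)
  have := hM
  have hg' := hg v hv
  have h4 := Pool.Agent.LE.IR.H54.law_le (d := d) (M := M) hσ hv (0 : Site d)
    (fun U => ¬ Sol d M E ((m : ℝ) ^ 2) U) (q := ENNReal.ofReal (1 - p)) (by
      simpa only [not_not] using hg')
  refine absurd (hm.trans_le ((measure_mono ?_).trans h4)) (lt_irrefl _)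
  intro V hV
  have h5 := hL d M V E (m : ℝ) h8 hV
  have h6 : (fun x : Tor d M => V ((0 : Site d) + rep x)) = fun x : Tor d M => V (rep x) := by
    funext x
    rw [zero_add]
  show ¬ ¬ Sol d M E ((m : ℝ) ^ 2) (fun x : Tor d M => V ((0 : Site d) + rep x))
  rw [h6, not_not]
  exact h5

end Pool.Agent.ANE.H90
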